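import Pool.Agent.Helper31.BQ.Stmts2

/-! # BQ: the row BI (second copy) -/

set_option autoImplicit false

namespace Pool.Agent.Helper77.BQ

open Filter Topology
open Pool.Agent.Helper31.BQ

theorem BI_cd {H : Type} [NormedAddCommGroup H] (x y : WW H) (k : ℕ) (g : GG k) :
    ‖(x : ∀ k, GG k → H) k g - (y : ∀ k, GG k → H) k g‖ ≤ ‖x - y‖ := by
  have h1 : (x : ∀ k, GG k → H) k g - (y : ∀ k, GG k → H) k g =
      ((x - y : WW H) : ∀ k, GG k → H) k g := by
    rw [lp.coeFn_sub]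
    rfl
  rw [h1]
  exact (norm_le_pi_norm _ g).trans (lp.norm_apply_le_norm two_ne_zero (x - y) k)

theorem BI_tend {H : Type} [NormedAddCommGroup H] [InnerProductSpace ℝ H] (J : ℕ → H →L[ℝ] H)
    (σ : ∀ k, Fin (2 ^ k) → GG k → ℝ) (τ : ∀ k, Fin (2 ^ (k + 1)) → GG k → ℝ)
    (x : ℕ → EE J σ τ) (y : EE J σ τ) (h : Tendsto x atTop (𝓝 y)) (k : ℕ) (g : GG k) :
    Tendsto (fun i => cd (x i : WW H) k g) atTop (𝓝 (cd (y : WW H) k g)) := by
  rw [tendsto_iff_norm_sub_tendsto_zero] at h ⊢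
  refine squeeze_zero (fun i => norm_nonneg _) (fun i => ?_) h
  exact BI_cd (x i : WW H) (y : WW H) k g

theorem st_BI : ST_BI := by
  intro H _ _ _ J e w S T hS σ τ δ hC ξ hξ
  have hid : ∀ k, bt w J σ τ ξ k (ContinuousLinearMap.id ℝ _) = 1 := by
    intro k
    unfold bt
    have h1 : ∀ j : Fin (2 ^ (k + 1)), ((2 : ℝ) ^ (k + 2))⁻¹ *
        ∑ g, τ k j g * inner ℝ w (J k (cd ((ContinuousLinearMap.id ℝ (EE J σ τ) (ξ k j) :
          EE J σ τ) : WW H) k g)) = 1 := by
      intro j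
      have h2 : ∀ g, τ k j g * inner ℝ w (J k (cd ((ContinuousLinearMap.id ℝ (EE J σ τ) (ξ k j) :
          EE J σ τ) : WW H) k g)) = τ k j g * τ k j g := by
        intro g
        rw [ContinuousLinearMap.id_apply, (hξ k j).1 g, map_smul, hS.2.2.1 k,
          real_inner_smul_right, real_inner_self_eq_norm_sq, hS.1]
        ring
      rw [Finset.sum_congr rfl fun g _ => h2 g, hC.2.2.2.1 k j j, if_pos rfl]
      exact inv_mul_cancel₀ (by positivity)
    rw [Finset.sum_congr rfl fun j _ => h1 j, Finset.sum_const, Finset.card_univ,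
      Fintype.card_fin, nsmul_eq_mul, mul_one]
    push_cast
    exact inv_mul_cancel₀ (by positivity)
  refine ⟨hid, ?_⟩
  intro k R hR
  rw [← hid k]
  unfold bt
  refine Tendsto.const_mul _ ?_
  refine tendsto_finsetSum _ fun j _ => ?_
  refine Tendsto.const_mul _ ?_
  refine tendsto_finsetSum _ fun g _ => ?_
  refine Tendsto.const_mul _ ?_
  refine Tendsto.inner tendsto_const_nhds ?_
  refine ((J k).continuous.tendsto _).comp ?_
  exact BI_tend J σ τ (fun i => R i (ξ k j)) _ (hR (ξ k j)) k g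

end Pool.Agent.Helper77.BQ
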