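import Pool.Agent.Helper31.BQ.Stmts3

/-! # BE: the row GR (second copy) -/

set_option autoImplicit false

namespace Pool.Agent.Helper77.BQ

open Filter Topology
open Pool.Agent.Helper31.BQ

universe u

/-- a finite net of a compact set -/
theorem GR_net {E : Type u} [NormedAddCommGroup E] (K : Set E) (hK : IsCompact K) (r : ℝ)
    (hr : 0 < r) : ∃ F : Finset E, (F : Set E) ⊆ K ∧ ∀ x ∈ K, ∃ y ∈ F, ‖x - y‖ ≤ r := by
  obtain ⟨t, ht, htf, hc⟩ := hK.finite_cover_balls hr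
  refine ⟨htf.toFinset, ?_, ?_⟩
  · rw [Set.Finite.coe_toFinset]
    exact ht
  · intro x hx
    have h1 := hc hx
    simp only [Set.mem_iUnion, Metric.mem_ball, exists_prop] at h1
    obtain ⟨y, hy, hxy⟩ := h1
    refine ⟨y, htf.mem_toFinset.2 hy, ?_⟩
    rw [← dist_eq_norm]
    exact hxy.le

/-- the sets -/
theorem GR_sets {E : Type u} [NormedAddCommGroup E] (K : Set E) (hK : IsCompact K) (r : ℕ → ℝ)
    (hr : ∀ k, 0 < r k) : ∃ (KK : ℕ → Set E) (F : ℕ → Finset E), KK 0 = K ∧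
      (∀ k, (F k : Set E) ⊆ KK k) ∧ (∀ k, ∀ x ∈ KK (k + 1), ‖x‖ ≤ r (k + 1)) ∧
      ∀ k, ∀ x ∈ KK k, ∃ y ∈ F k, x - y ∈ KK (k + 1) := by
  classical
  have hnet : ∀ (A : {A : Set E // IsCompact A}) (k : ℕ), ∃ F : Finset E, (F : Set E) ⊆ A.1 ∧
      ∀ x ∈ A.1, ∃ y ∈ F, ‖x - y‖ ≤ r (k + 1) := fun A k => GR_net A.1 A.2 _ (hr _)
  choose net hn1 hn2 using hnet
  have hstep : ∀ (A : {A : Set E // IsCompact A}) (k : ℕ),
      IsCompact (((fun p : E × E => p.1 - p.2) '' (A.1 ×ˢ (net A k : Set E))) ∩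
        Metric.closedBall 0 (r (k + 1))) := by
    intro A k
    have h1 : IsCompact (A.1 ×ˢ (net A k : Set E)) :=
      A.2.prod (net A k).finite_toSet.isCompact
    exact (h1.image (continuous_fst.sub continuous_snd)).inter_right Metric.isClosed_closedBall
  obtain ⟨KK, hKK0, hKK1⟩ : ∃ KK : ℕ → {A : Set E // IsCompact A}, KK 0 = ⟨K, hK⟩ ∧
      ∀ k, KK (k + 1) = ⟨_, hstep (KK k) k⟩ :=
    ⟨fun n => Nat.rec ⟨K, hK⟩ (fun k A => ⟨_, hstep A k⟩) n, rfl, fun _ => rfl⟩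
  refine ⟨fun k => (KK k).1, fun k => net (KK k) k, ?_, ?_, ?_, ?_⟩
  · show (KK 0).1 = K
    rw [hKK0]
  · intro k
    exact hn1 (KK k) k
  · intro k x hx
    have h1 : (KK (k + 1)).1 = _ := congrArg Subtype.val (hKK1 k)
    have h2 : x ∈ (KK (k + 1)).1 := hx
    rw [h1] at h2
    have h3 := h2.2
    rwa [Metric.mem_closedBall, dist_zero_right] at h3
  · intro k x hx
    obtain ⟨y, hy, hxy⟩ := hn2 (KK k) k x hx
    refine ⟨y, hy, ?_⟩
    have h1 : (KK (k + 1)).1 = _ := congrArg Subtype.val (hKK1 k)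
    show x - y ∈ (KK (k + 1)).1
    rw [h1]
    refine ⟨⟨(x, y), ⟨hx, hy⟩, rfl⟩, ?_⟩
    rw [Metric.mem_closedBall, dist_zero_right]
    exact hxy

/-- the null sequence -/
theorem GR_seq {E : Type u} [NormedAddCommGroup E] [NormedSpace ℝ E] (F : ℕ → Finset E)
    (hF : ∀ k, ∀ y ∈ F (k + 1), ‖y‖ ≤ (1 / 4 : ℝ) ^ (k + 1)) :
    ∃ x : ℕ → E, Tendsto x atTop (𝓝 0) ∧ ∀ k, ∀ y ∈ F k, ∃ n, x n = (2 : ℝ) ^ k • y := by
  classical
  obtain ⟨x, hx⟩ : ∃ x : ℕ → E, x = fun n => (2 : ℝ) ^ (Nat.unpair n).1 •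
      ((F (Nat.unpair n).1).toList.getD (Nat.unpair n).2 0) := ⟨_, rfl⟩
  refine ⟨x, ?_, ?_⟩
  · rw [← Nat.cofinite_eq_atTop, Metric.tendsto_nhds]
    intro δ hδ
    obtain ⟨N, hN⟩ := exists_pow_lt_of_lt_one hδ (by norm_num : (1 / 2 : ℝ) < 1)
    rw [Filter.eventually_cofinite]
    refine Set.Finite.subset (((Finset.range (N + 1)).sigma
      (fun k => Finset.range (F k).toList.length)).image
        (fun p => Nat.pair p.1 p.2)).finite_toSet ?_
    intro n hn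
    have hn' : ¬ dist (x n) 0 < δ := hn
    rw [dist_zero_right, hx] at hn'
    simp only at hn'
    obtain ⟨k, hk⟩ : ∃ k, k = (Nat.unpair n).1 := ⟨_, rfl⟩
    obtain ⟨j, hj⟩ : ∃ j, j = (Nat.unpair n).2 := ⟨_, rfl⟩
    rw [← hk, ← hj] at hn'
    have hnp : Nat.pair k j = n := by
      rw [hk, hj]
      exact Nat.pair_unpair n
    have hjl : j < (F k).toList.length := by
      by_contra hc
      rw [List.getD_eq_default _ _ (not_lt.1 hc), smul_zero, norm_zero] at hn'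
      exact hn' hδ
    have hmem : (F k).toList.getD j 0 ∈ F k := by
      rw [List.getD_eq_getElem _ _ hjl]
      exact Finset.mem_toList.1 (List.getElem_mem hjl)
    have hkN : k < N + 1 := by
      by_contra hc
      obtain ⟨m, rfl⟩ : ∃ m, k = m + 1 := ⟨k - 1, by omega⟩
      apply hn'
      have h1 := hF m _ hmem
      rw [norm_smul, Real.norm_of_nonneg (by positivity)]
      calc (2 : ℝ) ^ (m + 1) * ‖(F (m + 1)).toList.getD j 0‖ ≤
          (2 : ℝ) ^ (m + 1) * (1 / 4 : ℝ) ^ (m + 1) := mul_le_mul_of_nonneg_left h1 (by positivity)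
        _ = (1 / 2 : ℝ) ^ (m + 1) := by
            rw [← mul_pow]
            norm_num
        _ ≤ (1 / 2 : ℝ) ^ N := pow_le_pow_of_le_one (by norm_num) (by norm_num) (by omega)
        _ < δ := hN
    rw [Finset.mem_coe, Finset.mem_image]
    refine ⟨⟨k, j⟩, ?_, hnp⟩
    rw [Finset.mem_sigma, Finset.mem_range, Finset.mem_range]
    exact ⟨hkN, hjl⟩
  · intro k y hy
    obtain ⟨j, hj, hjy⟩ := List.getElem_of_mem (Finset.mem_toList.2 hy)
    refine ⟨Nat.pair k j, ?_⟩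
    rw [hx]
    simp only [Nat.unpair_pair]
    rw [List.getD_eq_getElem _ _ hj, hjy]

theorem st_GR : ST_GR.{u} := by
  intro E _ _ _ hE K hK ε hε
  obtain ⟨KK, F, hK0, hF1, hK1, hst⟩ := GR_sets K hK (fun k => (1 / 4 : ℝ) ^ k)
    (fun k => by positivity)
  obtain ⟨x, hx0, hx1⟩ := GR_seq F (fun k y hy => hK1 k y (hF1 (k + 1) hy))
  obtain ⟨T, hT, hT1⟩ := hE x hx0 (ε / 4) (by positivity)
  refine ⟨T, hT, ?_⟩
  choose! f hf1 hf2 using hst
  intro z hz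
  have hTy : ∀ k, ∀ y ∈ F k, ‖T y - y‖ ≤ (1 / 2 : ℝ) ^ k * (ε / 4) := by
    intro k y hy
    obtain ⟨n, hn⟩ := hx1 k y hy
    have h1 := hT1 n
    rw [hn, map_smul, ← smul_sub, norm_smul, Real.norm_of_nonneg (by positivity)] at h1
    calc ‖T y - y‖ = (1 / 2 : ℝ) ^ k * ((2 : ℝ) ^ k * ‖T y - y‖) := by
          rw [← mul_assoc, ← mul_pow]
          norm_num
      _ ≤ (1 / 2 : ℝ) ^ k * (ε / 4) := mul_le_mul_of_nonneg_left h1 (by positivity)
  obtain ⟨X, hX0, hX1⟩ : ∃ X : ℕ → E, X 0 = z ∧ ∀ k, X (k + 1) = X k - f k (X k) :=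
    ⟨fun n => Nat.rec z (fun k w => w - f k w) n, rfl, fun _ => rfl⟩
  have hXm : ∀ k, X k ∈ KK k := by
    intro k
    induction k with
    | zero =>
      rw [hX0, hK0]
      exact hz
    | succ k ih =>
      rw [hX1]
      exact hf2 k _ ih
  have hb : ∀ N : ℕ, ‖T z - z‖ ≤ (1 - (1 / 2 : ℝ) ^ N) * (ε / 2) + ‖T (X N) - X N‖ := by
    intro N
    induction N with
    | zero =>
      rw [hX0]
      simp
    | succ N ih =>
      have h1 : T (X N) - X N = (T (f N (X N)) - f N (X N)) + (T (X (N + 1)) - X (N + 1)) := by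
        rw [hX1, map_sub]
        abel
      have h2 := hTy N _ (hf1 N _ (hXm N))
      have h3 : ‖T (X N) - X N‖ ≤ (1 / 2 : ℝ) ^ N * (ε / 4) + ‖T (X (N + 1)) - X (N + 1)‖ := by
        rw [h1]
        exact (norm_add_le _ _).trans (add_le_add h2 le_rfl)
      have h4 : (1 - (1 / 2 : ℝ) ^ (N + 1)) * (ε / 2) =
          (1 - (1 / 2 : ℝ) ^ N) * (ε / 2) + (1 / 2 : ℝ) ^ N * (ε / 4) := by
        rw [pow_succ]
        ring
      rw [h4]
      linarith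
  have hb2 : ∀ N : ℕ, ‖T z - z‖ ≤ ε / 2 + (‖T‖ + 1) * (1 / 4 : ℝ) ^ (N + 1) := by
    intro N
    have h1 := hb (N + 1)
    have h2 : ‖T (X (N + 1)) - X (N + 1)‖ ≤ (‖T‖ + 1) * (1 / 4 : ℝ) ^ (N + 1) := by
      have h3 := hK1 N _ (hXm (N + 1))
      calc ‖T (X (N + 1)) - X (N + 1)‖ ≤ ‖T (X (N + 1))‖ + ‖X (N + 1)‖ := norm_sub_le _ _
        _ ≤ ‖T‖ * ‖X (N + 1)‖ + ‖X (N + 1)‖ := add_le_add (T.le_opNorm _) le_rfl
        _ = (‖T‖ + 1) * ‖X (N + 1)‖ := by ring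
        _ ≤ (‖T‖ + 1) * (1 / 4 : ℝ) ^ (N + 1) := mul_le_mul_of_nonneg_left h3 (by positivity)
    have h5 : (1 - (1 / 2 : ℝ) ^ (N + 1)) * (ε / 2) ≤ ε / 2 := by
      have : 0 ≤ (1 / 2 : ℝ) ^ (N + 1) * (ε / 2) := by positivity
      linarith
    linarith
  have hlim : Tendsto (fun N : ℕ => ε / 2 + (‖T‖ + 1) * (1 / 4 : ℝ) ^ (N + 1)) atTop
      (𝓝 (ε / 2 + (‖T‖ + 1) * 0)) := by
    have h1 : Tendsto (fun n : ℕ => (1 / 4 : ℝ) ^ n) atTop (𝓝 0) :=
      tendsto_pow_atTop_nhds_zero_of_lt_one (by norm_num) (by norm_num)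
    exact (((h1.comp (tendsto_add_atTop_nat 1)).const_mul _).const_add _)
  have hfin := ge_of_tendsto' hlim hb2
  rw [mul_zero, add_zero] at hfin
  linarith

end Pool.Agent.Helper77.BQ
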